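import Mathlib

namespace Pool.Agent.P.MP_3f3880_lc

variable {V : Type}

/-- All edge weights lie in the announced interval `[1, α]`. -/
def Admissible (G : SimpleGraph V) (α : ℝ) (w : Sym2 V → ℝ) : Prop :=
  ∀ e ∈ G.edgeSet, 1 ≤ w e ∧ w e ≤ α

/-- Cost of a walk: the sum of the weights of its edges, with multiplicity. -/
def cost {G : SimpleGraph V} {s t : V} (w : Sym2 V → ℝ) (p : G.Walk s t) : ℝ :=
  (p.edges.map w).sum

/-- The walk visits every vertex. -/
def Covers {G : SimpleGraph V} {s t : V} (p : G.Walk s t) : Prop :=
  ∀ v, v ∈ p.support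

/-- `A` (weights to walks) is the behaviour of a deterministic online algorithm: it always outputs
an `s`-`t` walk through all vertices, and its vertex number `k+1` depends only on the weights of
the edges incident to its vertices number `0, …, k`. -/
def IsOnline (G : SimpleGraph V) (s t : V) (α : ℝ) (A : (Sym2 V → ℝ) → G.Walk s t) : Prop :=
  (∀ w, Admissible G α w → Covers (A w)) ∧
  ∀ w w', Admissible G α w → Admissible G α w' → ∀ k : ℕ,
    (∀ i ≤ k, ∀ u, G.Adj ((A w).getVert i) u →
      w s((A w).getVert i, u) = w' s((A w).getVert i, u)) →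
    (A w).getVert (k + 1) = (A w').getVert (k + 1)

end Pool.Agent.P.MP_3f3880_lc
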