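import Pool.Agent.P.MP_3f3880_lc.Strip
import Pool.Agent.P.MP_3f3880_lc.Defs

namespace Pool.Agent.P.MP_3f3880_lc.FO

open SimpleGraph Finset

section General

variable {V : Type} {G : SimpleGraph V}

lemma cost_eq_sum (w : Sym2 V → ℝ) {s t : V} (p : G.Walk s t) :
    cost w p = ∑ i ∈ range p.length, w s(p.getVert i, p.getVert (i + 1)) := by
  induction p with
  | nil => simp [cost]
  | cons h p ih =>
    rw [Walk.length_cons, Finset.sum_range_succ']
    simp only [cost, Walk.edges_cons, List.map_cons, List.sum_cons, Walk.getVert_cons_succ,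
      Walk.getVert_zero] at *
    rw [ih]; ring

lemma walk_of_fun (f : ℕ → V) (m : ℕ) (h : ∀ i < m, G.Adj (f i) (f (i + 1))) :
    ∃ p : G.Walk (f 0) (f m), (∀ i ≤ m, f i ∈ p.support) ∧
      ∀ w : Sym2 V → ℝ, cost w p = ∑ i ∈ range m, w s(f i, f (i + 1)) := by
  induction m with
  | zero => exact ⟨Walk.nil, fun i hi => by simp [Nat.le_zero.1 hi], fun w => by simp [cost]⟩
  | succ m ih =>
    obtain ⟨p, h1, h2⟩ := ih fun i hi => h i (by omega)
    refine ⟨p.concat (h m (by omega)), fun i hi => ?_, fun w => ?_⟩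
    · rw [Walk.support_concat]
      rcases Nat.lt_or_ge i (m + 1) with c | c
      · simp [h1 i (by omega)]
      · simp [le_antisymm hi c]
    · rw [Finset.sum_range_succ, ← h2 w]
      simp [cost, Walk.edges_concat]

end General

/-- the graph with parameter `k` -/
def GG (k : ℕ) : SimpleGraph (Fin (19 + 2 * k)) where
  Adj a b := A k a b
  symm := ⟨fun _ _ h => Or.symm h⟩
  loopless := ⟨fun a h => by unfold A R at h; omega⟩

def toV (k x : ℕ) : Fin (19 + 2 * k) := if h : x < 19 + 2 * k then ⟨x, h⟩ else ⟨0, by omega⟩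

lemma toV_val {k x : ℕ} (h : x < 19 + 2 * k) : (toV k x : ℕ) = x := by simp [toV, h]

lemma toV_coe {k : ℕ} (v : Fin (19 + 2 * k)) : toV k v = v := by simp [toV]

open Classical in
/-- weight `α` on the pairs related by `H`, weight one elsewhere -/
noncomputable def wt {n : ℕ} (H : ℕ → ℕ → Prop) (α : ℝ) (e : Sym2 (Fin n)) : ℝ :=
  if ∃ a ∈ e, ∃ b ∈ e, H a b then α else 1

lemma wt_heavy {n : ℕ} {H : ℕ → ℕ → Prop} (α : ℝ) {a b : Fin n} (h : H a b ∨ H b a) :
    wt H α s(a, b) = α := by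
  refine if_pos ?_
  rcases h with h | h
  · exact ⟨a, by simp, b, by simp, h⟩
  · exact ⟨b, by simp, a, by simp, h⟩

lemma wt_light {n : ℕ} {H : ℕ → ℕ → Prop} (α : ℝ) {a b : Fin n} (h0 : ∀ x, ¬ H x x)
    (h1 : ¬ H a b) (h2 : ¬ H b a) : wt H α s(a, b) = 1 := by
  refine if_neg ?_
  rintro ⟨x, hx, y, hy, h⟩
  rcases Sym2.mem_iff.1 hx with rfl | rfl <;> rcases Sym2.mem_iff.1 hy with rfl | rfl
  · exact h0 _ h
  · exact h1 h
  · exact h2 h
  · exact h0 _ h

lemma wt_range {n : ℕ} (H : ℕ → ℕ → Prop) {α : ℝ} (h : 1 ≤ α) (e : Sym2 (Fin n)) :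
    1 ≤ wt H α e ∧ wt H α e ≤ α := by
  unfold wt
  split_ifs
  · exact ⟨h, le_rfl⟩
  · exact ⟨le_rfl, h⟩

def HQ (k x y : ℕ) : Prop := 20 + k ≤ x ∧ y < 19 + k ∧ x ≤ y + k + 1
def HP (k x y : ℕ) : Prop := 20 + k ≤ x ∧ y < 19 + k ∧ y + k + 2 ≤ x

/-- a short covering walk is a Hamiltonian path -/
lemma ham_of_walk {k : ℕ} (p : (GG k).Walk (toV k 16) (toV k (18 + k))) (hk : 3 ≤ k)
    (hp : Covers p) (hl : p.length < 19 + 2 * k) :
    p.length = 18 + 2 * k ∧ ∃ pos : ℕ → ℕ, Ham k pos ∧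
      (∀ i < 19 + 2 * k, pos (p.getVert i) = i) ∧
      Function.Bijective (fun i : Fin (19 + 2 * k) => p.getVert i) := by
  have hex : ∀ v, ∃ n, p.getVert n = v ∧ n ≤ p.length := fun v =>
    Walk.mem_support_iff_exists_getVert.1 (hp v)
  choose q hq1 hq2 using hex
  have hsurj : Function.Surjective (fun i : Fin (19 + 2 * k) => p.getVert i) := fun v =>
    ⟨⟨q v, by have := hq2 v; omega⟩, hq1 v⟩
  have hbij := (Finite.surjective_iff_bijective).1 hsurj
  have hqi : ∀ i < 19 + 2 * k, q (p.getVert i) = i := fun i hi => by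
    have := hbij.1 (a₁ := ⟨q (p.getVert i), by have := hq2 (p.getVert i); omega⟩) (a₂ := ⟨i, hi⟩)
      (hq1 _)
    simpa using this
  have hlen : p.length = 18 + 2 * k := by
    have h1 := hqi (18 + 2 * k) (by omega)
    have h2 := hq2 (p.getVert (18 + 2 * k))
    omega
  have ht : q (toV k (18 + k)) = 18 + 2 * k := by
    have := hqi p.length hl
    rwa [Walk.getVert_length, hlen] at this
  have hs : q (toV k 16) = 0 := by
    have := hqi 0 (by omega)
    rwa [Walk.getVert_zero] at this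
  have hinj : ∀ x < 19 + 2 * k, ∀ y < 19 + 2 * k, q (toV k x) = q (toV k y) → x = y :=
    fun x hx y hy h => by
      have h1 : toV k x = toV k y := by rw [← hq1 (toV k x), h, hq1]
      have h2 := congrArg Fin.val h1
      rwa [toV_val hx, toV_val hy] at h2
  refine ⟨hlen, fun x => q (toV k x), ⟨hinj, hs, fun x _ => ?_, fun x hx hne => ?_,
    fun x hx hne => ?_⟩, fun i hi => by beta_reduce; rw [toV_coe]; exact hqi i hi, hbij⟩
  · rw [ht, ← hlen]; exact hq2 _
  · have h1 : q (toV k x) < p.length := by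
      have h2 := hq2 (toV k x)
      have h3 := hinj x hx (18 + k) (by omega)
      omega
    have h2 := p.adj_getVert_succ h1
    rw [hq1] at h2
    refine ⟨p.getVert (q (toV k x) + 1), Fin.is_lt _, ?_, ?_⟩
    · have h3 : A k (toV k x) (p.getVert (q (toV k x) + 1)) := h2
      rwa [toV_val hx] at h3
    · rw [toV_coe]; exact hqi _ (by omega)
  · have h0 : q (toV k x) ≠ 0 := fun h => hne (hinj x hx 16 (by omega) (by rw [h, hs]))
    have h1 := hq2 (toV k x)
    obtain ⟨j, hj⟩ : ∃ j, q (toV k x) = j + 1 := ⟨q (toV k x) - 1, by omega⟩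
    have h2 := p.adj_getVert_succ (i := j) (by omega)
    rw [← hj, hq1] at h2
    refine ⟨p.getVert j, Fin.is_lt _, ?_, ?_⟩
    · have h3 : A k (toV k x) (p.getVert j) := h2.symm
      rwa [toV_val hx] at h3
    · rw [toV_coe, hqi j (by omega), hj]

lemma chi_sum (k : ℕ) (hk : 3 ≤ k) :
    ∑ v : Fin (19 + 2 * k), (if 20 + k ≤ (v : ℕ) then (1 : ℝ) else 0) = k - 1 := by
  rw [Fin.sum_univ_eq_sum_range (fun v => if 20 + k ≤ v then (1 : ℝ) else 0), ← Finset.sum_filter]
  have : (range (19 + 2 * k)).filter (fun v => 20 + k ≤ v) = Ico (20 + k) (19 + 2 * k) := by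
    ext v; simp; omega
  rw [this, Finset.sum_const, Nat.card_Ico, show 19 + 2 * k - (20 + k) = k - 1 by omega,
    nsmul_eq_mul, mul_one, Nat.cast_sub (by omega)]
  simp

/-- lower bound for the cost of a covering walk -/
lemma lower {k : ℕ} (hk : 3 ≤ k) {α : ℝ} (hα : 1 ≤ α) (H : ℕ → ℕ → Prop)
    (p : (GG k).Walk (toV k 16) (toV k (18 + k))) (hp : Covers p)
    (hH : ∀ pos, Ham k pos → pos (p.getVert 1) = 1 → ∀ x < 19 + 2 * k, ∀ y < 19 + 2 * k,
      20 + k ≤ x → U pos x y → y < 19 + k ∧ H x y) :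
    19 + 2 * (k : ℝ) ≤ cost (wt H α) p ∨
      18 + 2 * (k : ℝ) + (α - 1) * (2 * (k - 1)) ≤ cost (wt H α) p := by
  rw [cost_eq_sum]
  rcases Nat.lt_or_ge p.length (19 + 2 * k) with hl | hl
  · right
    obtain ⟨hlen, pos, hpos, hi, hbij⟩ := ham_of_walk p hk hp hl
    set χ : ℕ → ℝ := fun i => if 20 + k ≤ (p.getVert i : ℕ) then 1 else 0 with hχ
    have h1 : ∑ i ∈ range (18 + 2 * k + 1), χ i = k - 1 := by
      rw [← chi_sum k hk, show 18 + 2 * k + 1 = 19 + 2 * k by omega,
        ← Fin.sum_univ_eq_sum_range χ]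
      exact Fintype.sum_bijective _ hbij _ _ fun _ => rfl
    have h2 : χ 0 = 0 := by
      simp only [hχ, Walk.getVert_zero]
      rw [toV_val (by omega), if_neg (by omega)]
    have h3 : χ (18 + 2 * k) = 0 := by
      simp only [hχ]
      rw [← hlen, Walk.getVert_length, toV_val (by omega), if_neg (by omega)]
    have h4 := Finset.sum_range_succ χ (18 + 2 * k)
    have h5 := Finset.sum_range_succ' χ (18 + 2 * k)
    have h6 : ∀ i ∈ range (18 + 2 * k), 1 + (α - 1) * (χ i + χ (i + 1)) ≤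
        wt H α s(p.getVert i, p.getVert (i + 1)) := by
      intro i hi'
      have hi2 := mem_range.1 hi'
      have hU : U pos (p.getVert i) (p.getVert (i + 1)) :=
        Or.inl (by rw [hi i (by omega), hi (i + 1) (by omega)])
      have g1 := fun c => hH pos hpos (hi 1 (by omega)) _ (Fin.is_lt _) _ (Fin.is_lt _) c hU
      have g2 := fun c => hH pos hpos (hi 1 (by omega)) _ (Fin.is_lt _) _ (Fin.is_lt _) c hU.symm
      simp only [hχ]
      split_ifs with c1 c2 c2
      · have := (g1 c1).1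
        omega
      · rw [wt_heavy α (Or.inl (g1 c1).2)]; linarith
      · rw [wt_heavy α (Or.inr (g2 c2).2)]; linarith
      · have := (wt_range H hα s(p.getVert i, p.getVert (i + 1))).1
        linarith
    rw [hlen]
    refine le_trans (le_of_eq ?_) (Finset.sum_le_sum h6)
    rw [Finset.sum_add_distrib, ← Finset.mul_sum, Finset.sum_add_distrib, Finset.sum_const,
      card_range, nsmul_eq_mul]
    have h7 : ∑ i ∈ range (18 + 2 * k), χ i + ∑ i ∈ range (18 + 2 * k), χ (i + 1) =
        2 * (k - 1) := by linarith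
    rw [h7]
    push_cast
    ring
  · left
    have h1 := Finset.card_nsmul_le_sum (range p.length)
      (fun i => wt H α s(p.getVert i, p.getVert (i + 1))) 1 (fun i _ => (wt_range H hα _).1)
    rw [card_range, nsmul_eq_mul, mul_one] at h1
    have h2 : ((19 + 2 * k : ℕ) : ℝ) ≤ p.length := by exact_mod_cast hl
    push_cast at h2
    linarith

end Pool.Agent.P.MP_3f3880_lc.FO
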