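import Pool.Agent.P.MP_3f3880_lc.First

namespace Pool.Agent.P.MP_3f3880_lc.FO

open SimpleGraph Finset

def cst (r : ℕ) : ℕ := [2, 1, 0, 4, 3, 7, 6, 5, 0, 10, 9, 8, 12, 11, 15, 14, 13].getD r 0

def bot (k r : ℕ) : ℕ := if r = 8 then 17 + k else if 17 ≤ r then 18 + k else cst r

/-- the path that starts into the strip -/
def fP (k i : ℕ) : ℕ :=
  if i ≤ 2 * k then (if i % 2 = 0 then 16 + i / 2 else 19 + k + i / 2) else bot k (i - (2 * k + 1))

/-- the path that starts into the gadgets -/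
def fQ (k i : ℕ) : ℕ :=
  if i = 0 then 16 else if i ≤ 16 then i - 1 else if i = 17 then 17 else
    if i % 2 = 0 then 9 + i / 2 else 10 + k + i / 2

lemma fP_bot (k r : ℕ) : fP k (2 * k + 1 + r) = bot k r := by
  unfold fP
  rw [if_neg (by omega), Nat.add_sub_cancel_left]

lemma A_strip {k x y : ℕ} (h1 : 19 + k ≤ y) (h2 : y ≤ x + k + 3) (h3 : x + k ≤ y)
    (h4 : x < 19 + k) : A k x y := by
  left
  unfold R
  simp only [h1, h2, h3, h4, and_self, or_true]

lemma fP_even {k j : ℕ} (h : j ≤ k) : fP k (2 * j) = 16 + j := by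
  unfold fP
  rw [if_pos (by omega), if_pos (by omega)]
  omega

lemma fP_odd {k j : ℕ} (h : j < k) : fP k (2 * j + 1) = 19 + k + j := by
  unfold fP
  rw [if_pos (by omega), if_neg (by omega)]
  omega

lemma fP_step {k : ℕ} (hk : 3 ≤ k) (i : ℕ) (hi : i < 18 + 2 * k) :
    fP k i < 19 + 2 * k ∧ fP k (i + 1) < 19 + 2 * k ∧ A k (fP k i) (fP k (i + 1)) ∧
      ¬ HQ k (fP k i) (fP k (i + 1)) ∧ ¬ HQ k (fP k (i + 1)) (fP k i) := by
  rcases Nat.lt_trichotomy i (2 * k) with h | h | h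
  · obtain ⟨j, rfl | rfl⟩ := Nat.even_or_odd' i
    · rw [fP_even (by omega), fP_odd (by omega)]
      exact ⟨by omega, by omega, A_strip (by omega) (by omega) (by omega) (by omega),
        by unfold HQ; omega, by unfold HQ; omega⟩
    · rw [fP_odd (by omega), show 2 * j + 1 + 1 = 2 * (j + 1) by omega, fP_even (by omega)]
      exact ⟨by omega, by omega, Or.symm (A_strip (by omega) (by omega) (by omega) (by omega)),
        by unfold HQ; omega, by unfold HQ; omega⟩
  · subst h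
    have e : fP k (2 * k + 1) = 2 := fP_bot k 0
    rw [e, fP_even le_rfl]
    exact ⟨by omega, by omega, by simp [A, R], by unfold HQ; omega, by unfold HQ; omega⟩
  · obtain ⟨r, rfl⟩ : ∃ r, i = 2 * k + 1 + r := ⟨i - (2 * k + 1), by omega⟩
    rw [add_assoc _ r 1, fP_bot, fP_bot]
    have hr : r < 17 := by omega
    have hb : ∀ r, bot k r < 19 + k := fun r => by
      unfold bot
      split_ifs with c1 c2
      · omega
      · omega
      · have h17 : r < 17 := by omega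
        have : cst r < 16 := by interval_cases r <;> decide
        omega
    have b1 := hb r
    have b2 := hb (r + 1)
    refine ⟨by omega, by omega, ?_, by unfold HQ; omega, by unfold HQ; omega⟩
    interval_cases r <;> simp [bot, cst, A, R]

lemma fP_surj {k : ℕ} (x : ℕ) (hx : x < 19 + 2 * k) : ∃ i ≤ 18 + 2 * k, fP k i = x := by
  by_cases h1 : x < 16
  · have : ∃ r < 17, r ≠ 8 ∧ cst r = x := by
      interval_cases x <;> decide
    obtain ⟨r, r1, r2, r3⟩ := this
    refine ⟨2 * k + 1 + r, by omega, ?_⟩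
    rw [fP_bot, bot, if_neg r2, if_neg (by omega), r3]
  by_cases h2 : x ≤ 16 + k
  · refine ⟨2 * (x - 16), by omega, ?_⟩
    unfold fP
    rw [if_pos (by omega), if_pos (by omega)]
    omega
  by_cases h3 : x = 17 + k
  · exact ⟨2 * k + 1 + 8, by omega, by rw [fP_bot, h3]; rfl⟩
  by_cases h4 : x = 18 + k
  · exact ⟨2 * k + 1 + 17, by omega, by rw [fP_bot, h4]; rfl⟩
  · refine ⟨2 * (x - (19 + k)) + 1, by omega, ?_⟩
    unfold fP
    rw [if_pos (by omega), if_neg (by omega)]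
    omega

lemma fQ_even (k j : ℕ) : fQ k (18 + 2 * j) = 18 + j := by
  unfold fQ
  rw [if_neg (by omega), if_neg (by omega), if_neg (by omega), if_pos (by omega)]
  omega

lemma fQ_odd (k j : ℕ) : fQ k (18 + 2 * j + 1) = 19 + k + j := by
  unfold fQ
  rw [if_neg (by omega), if_neg (by omega), if_neg (by omega), if_neg (by omega)]
  omega

lemma fQ_step {k : ℕ} (hk : 3 ≤ k) (i : ℕ) (hi : i < 18 + 2 * k) :
    fQ k i < 19 + 2 * k ∧ fQ k (i + 1) < 19 + 2 * k ∧ A k (fQ k i) (fQ k (i + 1)) ∧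
      ¬ HP k (fQ k i) (fQ k (i + 1)) ∧ ¬ HP k (fQ k (i + 1)) (fQ k i) := by
  rcases Nat.lt_or_ge i 18 with h | h
  · have hb : ∀ i ≤ 18, fQ k i < 19 := fun i hi => by interval_cases i <;> simp [fQ]
    have b1 := hb i (by omega)
    have b2 := hb (i + 1) (by omega)
    refine ⟨by omega, by omega, ?_, by unfold HP; omega, by unfold HP; omega⟩
    interval_cases i <;> simp [fQ, A, R]
  · obtain ⟨m, rfl⟩ : ∃ m, i = 18 + m := ⟨i - 18, by omega⟩
    obtain ⟨j, rfl | rfl⟩ := Nat.even_or_odd' m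
    · rw [fQ_even, fQ_odd]
      exact ⟨by omega, by omega, A_strip (by omega) (by omega) (by omega) (by omega),
        by unfold HP; omega, by unfold HP; omega⟩
    · rw [show 18 + (2 * j + 1) + 1 = 18 + 2 * (j + 1) by omega, ← add_assoc, fQ_even, fQ_odd]
      exact ⟨by omega, by omega, Or.symm (A_strip (by omega) (by omega) (by omega) (by omega)),
        by unfold HP; omega, by unfold HP; omega⟩

lemma fQ_surj {k : ℕ} (x : ℕ) (hx : x < 19 + 2 * k) : ∃ i ≤ 18 + 2 * k, fQ k i = x := by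
  by_cases h1 : x < 16
  · refine ⟨x + 1, by omega, ?_⟩
    unfold fQ
    rw [if_neg (by omega), if_pos (by omega)]
    omega
  by_cases h2 : x = 16
  · exact ⟨0, by omega, h2.symm⟩
  by_cases h3 : x = 17
  · exact ⟨17, by omega, h3.symm⟩
  by_cases h4 : x < 19 + k
  · exact ⟨18 + 2 * (x - 18), by omega, by rw [fQ_even]; omega⟩
  · exact ⟨18 + 2 * (x - (19 + k)) + 1, by omega, by rw [fQ_odd]; omega⟩

lemma light_walk {k : ℕ} (f : ℕ → ℕ) (H : ℕ → ℕ → Prop) (h0 : f 0 = 16)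
    (h1 : f (18 + 2 * k) = 18 + k) (hH : ∀ x, ¬ H x x)
    (hs : ∀ i < 18 + 2 * k, f i < 19 + 2 * k ∧ f (i + 1) < 19 + 2 * k ∧ A k (f i) (f (i + 1)) ∧
      ¬ H (f i) (f (i + 1)) ∧ ¬ H (f (i + 1)) (f i))
    (hc : ∀ x < 19 + 2 * k, ∃ i ≤ 18 + 2 * k, f i = x) :
    ∃ p : (GG k).Walk (toV k 16) (toV k (18 + k)), Covers p ∧
      ∀ α, cost (wt H α) p = 18 + 2 * (k : ℝ) := by
  obtain ⟨p, p1, p2⟩ := walk_of_fun (G := GG k) (fun i => toV k (f i)) (18 + 2 * k) fun i hi => by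
    obtain ⟨a, b, c, _⟩ := hs i hi
    show A k (toV k (f i)) (toV k (f (i + 1)))
    rwa [toV_val a, toV_val b]
  refine ⟨p.copy (by rw [h0]) (by rw [h1]), fun v => ?_, fun α => ?_⟩
  · obtain ⟨i, i1, i2⟩ := hc v v.is_lt
    have := p1 i i1
    rw [i2, toV_coe] at this
    rwa [Walk.support_copy]
  · have e : cost (wt H α) (p.copy (u' := toV k 16) (v' := toV k (18 + k)) (by rw [h0])
        (by rw [h1])) = cost (wt H α) p := by
      unfold cost
      rw [Walk.edges_copy]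
    rw [e, p2, Finset.sum_congr rfl (g := fun _ => (1 : ℝ)) fun i hi => ?_]
    · simp
    · obtain ⟨a, b, _, d, e⟩ := hs i (mem_range.1 hi)
      exact wt_light α hH (by rwa [toV_val a, toV_val b]) (by rwa [toV_val a, toV_val b])

theorem first_order (κ : ℝ) (hκ : κ < 1) :
    ∃ (n : ℕ) (G : SimpleGraph (Fin n)) (s t : Fin n), G.Connected ∧ s ≠ t ∧
    ∀ α : ℝ, 1 < α → α ≤ 1 + 1 / (n : ℝ) →
      ∀ A : (Sym2 (Fin n) → ℝ) → G.Walk s t, IsOnline G s t α A →
        ∃ w, Admissible G α w ∧ ∃ p : G.Walk s t, Covers p ∧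
          (1 + κ * (α - 1)) * cost w p < cost w (A w) := by
  obtain ⟨k0, hk0⟩ := exists_nat_ge (10 / (1 - κ))
  obtain ⟨k, hk, hk1⟩ : ∃ k : ℕ, 3 ≤ k ∧ 10 ≤ (k : ℝ) * (1 - κ) := by
    refine ⟨k0 + 3, by omega, ?_⟩
    rw [div_le_iff₀ (by linarith)] at hk0
    push_cast
    nlinarith
  have hk3 : (3 : ℝ) ≤ k := by exact_mod_cast hk
  obtain ⟨wP, cP, eP⟩ := light_walk (k := k) (fP k) (HQ k) (by simp [fP])
    (by rw [show 18 + 2 * k = 2 * k + 1 + 17 by omega, fP_bot]; rfl)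
    (fun x => by unfold HQ; omega) (fP_step hk) fP_surj
  obtain ⟨wQ, cQ, eQ⟩ := light_walk (k := k) (fQ k) (HP k) rfl
    (fQ_even k k) (fun x => by unfold HP; omega) (fQ_step hk) fQ_surj
  refine ⟨19 + 2 * k, GG k, toV k 16, toV k (18 + k), ?_, ?_, fun α h1 h2 B hB => ?_⟩
  · rw [connected_iff_exists_forall_reachable]
    exact ⟨_, fun v => ⟨wP.takeUntil v (cP v)⟩⟩
  · intro h
    have := congrArg Fin.val h
    rw [toV_val (by omega), toV_val (by omega)] at this
    omega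
  have adm : ∀ H, Admissible (GG k) α (wt H α) := fun H e _ => wt_range H h1.le e
  have hsame : (B (wt (HQ k) α)).getVert 1 = (B (wt (HP k) α)).getVert 1 := by
    refine hB.2 _ _ (adm _) (adm _) 0 fun i hi u hu => ?_
    rw [Nat.le_zero.1 hi, Walk.getVert_zero] at hu ⊢
    have hu' : A k (toV k 16) u := hu
    have hv : (toV k 16 : ℕ) = 16 := toV_val (by omega)
    rw [hv] at hu'
    unfold A R at hu'
    rw [wt_light α (fun x => by unfold HQ; omega) (by rw [hv]; unfold HQ; omega)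
      (by rw [hv]; unfold HQ; omega), wt_light α (fun x => by unfold HP; omega)
      (by rw [hv]; unfold HP; omega) (by rw [hv]; unfold HP; omega)]
  have fin : ∀ c : ℝ, (19 + 2 * (k : ℝ) ≤ c ∨ 18 + 2 * (k : ℝ) + (α - 1) * (2 * (k - 1)) ≤ c) →
      (1 + κ * (α - 1)) * (18 + 2 * (k : ℝ)) < c := by
    intro c hc
    have ha : 0 < α - 1 := by linarith
    have h3 : (α - 1) * (19 + 2 * (k : ℝ)) ≤ 1 := by
      have h4 : α - 1 ≤ 1 / (19 + 2 * (k : ℝ)) := by
        push_cast at h2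
        linarith
      rwa [le_div_iff₀ (by linarith)] at h4
    rcases hc with hc | hc
    · have h5 : κ * (18 + 2 * (k : ℝ)) < 19 + 2 * k := by nlinarith
      nlinarith [mul_lt_mul_of_pos_left h5 ha]
    · have h5 : κ * (18 + 2 * (k : ℝ)) < 2 * (k - 1) := by nlinarith
      nlinarith [mul_lt_mul_of_pos_left h5 ha]
  by_cases h0 : ((B (wt (HQ k) α)).getVert 1 : ℕ) = 0
  · refine ⟨wt (HQ k) α, adm _, wP, cP, ?_⟩
    rw [eP]
    refine fin _ (lower hk h1.le _ _ (hB.1 _ (adm _)) fun pos hp h3 x hx y hy h4 hU => ?_)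
    rw [h0] at h3
    obtain ⟨i, rfl⟩ : ∃ i, x = 19 + k + i := ⟨x - (19 + k), by omega⟩
    have h5 := hp.modeA hk (Or.inr (by rw [hp.hs, h3])) i (by omega) (by omega)
    have := hp.le2 hy (by omega) (by omega) hU h5.1 h5.2
    unfold HQ
    omega
  · refine ⟨wt (HP k) α, adm _, wQ, cQ, ?_⟩
    rw [eQ]
    refine fin _ (lower hk h1.le _ _ (hB.1 _ (adm _)) fun pos hp h3 x hx y hy h4 hU => ?_)
    rw [hsame] at h0
    obtain ⟨i, rfl⟩ : ∃ i, x = 19 + k + i := ⟨x - (19 + k), by omega⟩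
    have h6 := hp.inj _ (Fin.is_lt ((B (wt (HP k) α)).getVert 1)) 0 (by omega)
    have h7 := hp.hs
    have h5 := hp.modeB hk (by unfold U; omega) i (by omega)
    have := hp.le2 hy (by omega) (by omega) hU h5.1 h5.2
    unfold HP
    omega

end Pool.Agent.P.MP_3f3880_lc.FO
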