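import Pool.Agent.P.MP_3f3880_lc.Defs

namespace Pool.Agent.P.MP_3f3880_lc

open SimpleGraph

/-- first Hamiltonian path -/
def pP : List (Fin 10 × Fin 10) :=
  [(0,1),(1,2),(2,3),(3,4),(4,5),(5,6),(6,7),(7,8),(8,9)]
/-- second Hamiltonian path -/
def pQ : List (Fin 10 × Fin 10) :=
  [(0,5),(5,4),(4,6),(6,8),(8,7),(7,3),(3,1),(1,2),(2,9)]

def inL (l : List (Fin 10 × Fin 10)) (a b : Fin 10) : Bool :=
  l.any fun e => (e.1 == a && e.2 == b) || (e.1 == b && e.2 == a)

lemma inL_symm (l : List (Fin 10 × Fin 10)) (a b : Fin 10) : inL l a b = inL l b a := by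
  unfold inL
  congr 1
  funext e
  rw [Bool.or_comm]

def adjB (a b : Fin 10) : Bool := inL (pP ++ pQ) a b

def GG : SimpleGraph (Fin 10) where
  Adj a b := adjB a b = true
  symm := ⟨fun a b h => by unfold adjB at *; rw [inL_symm]; exact h⟩
  loopless := ⟨fun a => by revert a; decide⟩

instance : DecidableRel GG.Adj := fun a b => inferInstanceAs (Decidable (adjB a b = true))

/-- heavy indicator with respect to a list of light edges -/
def hv (l : List (Fin 10 × Fin 10)) (a b : Fin 10) : ℕ := if inL l a b then 0 else 1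

def hvS (l : List (Fin 10 × Fin 10)) : Sym2 (Fin 10) → ℕ :=
  Sym2.lift ⟨hv l, fun a b => by unfold hv; rw [inL_symm]⟩

def wt (l : List (Fin 10 × Fin 10)) (α : ℝ) : Sym2 (Fin 10) → ℝ :=
  fun e => 1 + (α - 1) * hvS l e

lemma hvS_le (l : List (Fin 10 × Fin 10)) (e : Sym2 (Fin 10)) : hvS l e ≤ 1 := by
  induction e using Sym2.ind with
  | _ a b => simp only [hvS, Sym2.lift_mk, hv]; split_ifs <;> simp

lemma adm_wt (l : List (Fin 10 × Fin 10)) {α : ℝ} (h : 1 ≤ α) : Admissible GG α (wt l α) := by
  intro e _
  have h1 : (hvS l e : ℝ) ≤ 1 := by exact_mod_cast hvS_le l e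
  have h0 : (0 : ℝ) ≤ hvS l e := Nat.cast_nonneg _
  unfold wt
  constructor <;> nlinarith

def heavy (l : List (Fin 10 × Fin 10)) {s t : Fin 10} (p : GG.Walk s t) : ℕ :=
  (p.edges.map (hvS l)).sum

lemma cost_wt (l : List (Fin 10 × Fin 10)) (α : ℝ) {s t : Fin 10} (p : GG.Walk s t) :
    cost (wt l α) p = p.length + (α - 1) * heavy l p := by
  induction p with
  | nil => simp [cost, heavy]
  | cons h p ih =>
    simp only [cost, heavy, Walk.edges_cons, List.map_cons, List.sum_cons, Walk.length_cons] at *
    rw [ih]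
    simp only [wt]
    push_cast
    ring

def good (len h : ℕ) : Bool :=
  decide (9 ≤ len) && (len != 9 || decide (5 ≤ h)) && (len != 10 || decide (1 ≤ h))

def nb (v : Fin 10) : List (Fin 10) := (List.finRange 10).filter fun u => adjB v u

def chk (l : List (Fin 10 × Fin 10)) : ℕ → Fin 10 → ℕ → ℕ → ℕ → Bool
  | 0, v, S, len, h => (v != 9 || S != 1023 || good len h)
  | f + 1, v, S, len, h => (v != 9 || S != 1023 || good len h) &&
      (nb v).all fun u => chk l f u (S ||| 2 ^ u.val) (len + 1) (h + hv l v u)

def mask : List (Fin 10) → ℕ → ℕ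
  | [], S => S
  | u :: r, S => mask r (S ||| 2 ^ u.val)

lemma chk_sound (l : List (Fin 10 × Fin 10)) {v t : Fin 10} (p : GG.Walk v t) (ht : t = 9) :
    ∀ (f S len h : ℕ), p.length ≤ f → chk l f v S len h = true →
      mask p.support.tail S = 1023 → good (len + p.length) (h + heavy l p) = true := by
  induction p with
  | nil =>
    intro f S len h _ hc hm
    subst ht
    simp only [Walk.support_nil, List.tail_cons, mask] at hm
    subst hm
    cases f <;> simp [chk] at hc <;> simp [heavy] <;> first | exact hc | exact hc.1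
  | @cons a b c hab p ih =>
    intro f S len h hf hc hm
    cases f with
    | zero => simp at hf
    | succ f =>
      simp only [chk, Bool.and_eq_true, List.all_eq_true] at hc
      have hb : b ∈ nb a := by
        simp only [nb, List.mem_filter, List.mem_finRange, true_and]
        exact hab
      have h2 := hc.2 b hb
      have hm2 : mask p.support.tail (S ||| 2 ^ b.val) = 1023 := by
        rw [Walk.support_cons, List.tail_cons, ← Walk.cons_tail_support] at hm
        exact hm
      have := ih ht f _ _ _ (by simpa using hf) h2 hm2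
      have e1 : len + (Walk.cons hab p).length = len + 1 + p.length := by
        simp only [Walk.length_cons]; ring
      have e2 : h + heavy l (Walk.cons hab p) = h + hv l a b + heavy l p := by
        simp only [heavy, Walk.edges_cons, List.map_cons, List.sum_cons, hvS, Sym2.lift_mk]; ring
      rw [e1, e2]; exact this

lemma mask_testBit (r : List (Fin 10)) : ∀ (S i : ℕ),
    (mask r S).testBit i = (S.testBit i || r.any fun u => u.val == i) := by
  induction r with
  | nil => intro S i; simp [mask]
  | cons u r ih =>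
    intro S i
    simp only [mask, ih, Nat.testBit_or, List.any_cons, Nat.testBit_two_pow, Bool.or_assoc]
    congr 2

lemma mask_full (r : List (Fin 10)) (hr : ∀ v, v ∈ r) : mask r 0 = 1023 := by
  apply Nat.eq_of_testBit_eq
  intro i
  rw [mask_testBit]
  have e : (1023 : ℕ) = 2 ^ 10 - 1 := by norm_num
  rw [e, Nat.testBit_two_pow_sub_one]
  by_cases hi : i < 10
  · simp only [Nat.zero_testBit, Bool.false_or, hi, decide_true, List.any_eq_true, beq_iff_eq]
    exact ⟨⟨i, hi⟩, hr _, rfl⟩
  · simp only [Nat.zero_testBit, Bool.false_or, hi, decide_false]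
    rw [List.any_eq_false]
    intro u _ hu
    have := u.2
    simp only [beq_iff_eq] at hu
    omega

def lQ : List (Fin 10 × Fin 10) := (0,1) :: pQ
def lP : List (Fin 10 × Fin 10) := (0,5) :: pP

lemma chkQ : chk lQ 9 1 3 1 0 = true := by decide +kernel
lemma chkP : chk lP 9 5 33 1 0 = true := by decide +kernel

lemma lower (l : List (Fin 10 × Fin 10)) (b : Fin 10) (S : ℕ) (hS : S = 0 ||| 2 ^ 0 ||| 2 ^ b.val)
    (hl : hv l 0 b = 0) (hc : chk l 9 b S 1 0 = true)
    {α : ℝ} (h1 : 1 < α) (h2 : α < 9 / 7) (p : GG.Walk 0 9) (hp : Covers p)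
    (hb : p.getVert 1 = b) : (1 + α) / 2 * 9 < cost (wt l α) p := by
  rw [cost_wt]
  have h0 : (0 : ℝ) ≤ heavy l p := Nat.cast_nonneg _
  by_cases hlen : 11 ≤ p.length
  · have : (11 : ℝ) ≤ p.length := by exact_mod_cast hlen
    nlinarith
  · cases p with
    | @cons _ c _ hab q =>
      have hcb : c = b := by simpa using hb
      subst hcb
      have hm : mask q.support.tail S = 1023 := by
        have := mask_full _ hp
        rw [Walk.support_cons, ← Walk.cons_tail_support] at this
        simp only [mask] at this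
        rw [hS]; exact this
      have hq : q.length ≤ 9 := by simp only [Walk.length_cons] at hlen; omega
      have hg := chk_sound l q rfl 9 S 1 0 hq hc hm
      have e2 : heavy l (Walk.cons hab q) = heavy l q := by
        simp only [heavy, Walk.edges_cons, List.map_cons, List.sum_cons, hvS, Sym2.lift_mk, hl]
        ring
      rw [e2] at h0 ⊢
      simp only [good, Bool.and_eq_true, Bool.or_eq_true, decide_eq_true_eq, bne_iff_ne,
        zero_add] at hg
      simp only [Walk.length_cons]
      obtain ⟨⟨g1, g2⟩, g3⟩ := hg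
      have hcases : q.length = 8 ∨ q.length = 9 := by omega
      rcases hcases with hq | hq
      · have h5 : 5 ≤ heavy l q := by omega
        have h5' : (5 : ℝ) ≤ heavy l q := by exact_mod_cast h5
        rw [hq]; push_cast; nlinarith
      · have h5 : 1 ≤ heavy l q := by omega
        have h5' : (1 : ℝ) ≤ heavy l q := by exact_mod_cast h5
        rw [hq]; push_cast; nlinarith

def wP : GG.Walk 0 9 :=
  .cons (v := 1) (by decide) <| .cons (v := 2) (by decide) <| .cons (v := 3) (by decide) <|
  .cons (v := 4) (by decide) <| .cons (v := 5) (by decide) <| .cons (v := 6) (by decide) <|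
  .cons (v := 7) (by decide) <| .cons (v := 8) (by decide) <| .cons (v := 9) (by decide) .nil

def wQ : GG.Walk 0 9 :=
  .cons (v := 5) (by decide) <| .cons (v := 4) (by decide) <| .cons (v := 6) (by decide) <|
  .cons (v := 8) (by decide) <| .cons (v := 7) (by decide) <| .cons (v := 3) (by decide) <|
  .cons (v := 1) (by decide) <| .cons (v := 2) (by decide) <| .cons (v := 9) (by decide) .nil

lemma covers_wP : Covers wP := by unfold Covers; decide
lemma covers_wQ : Covers wQ := by unfold Covers; decide

lemma cost_wP (α : ℝ) : cost (wt lP α) wP = 9 := by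
  rw [cost_wt]
  have h1 : wP.length = 9 := by decide
  have h2 : heavy lP wP = 0 := by decide
  rw [h1, h2]; simp

lemma cost_wQ (α : ℝ) : cost (wt lQ α) wQ = 9 := by
  rw [cost_wt]
  have h1 : wQ.length = 9 := by decide
  have h2 : heavy lQ wQ = 0 := by decide
  rw [h1, h2]; simp

lemma GG_connected : GG.Connected := by
  rw [connected_iff_exists_forall_reachable]
  refine ⟨0, fun v => ?_⟩
  exact ⟨wP.takeUntil v (covers_wP v)⟩

theorem main : ∃ (G : SimpleGraph (Fin 10)) (s t : Fin 10), G.Connected ∧ s ≠ t ∧
    ∀ α : ℝ, 1 < α → α < 9 / 7 →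
      ∀ A : (Sym2 (Fin 10) → ℝ) → G.Walk s t, IsOnline G s t α A →
        ∃ w, Admissible G α w ∧ ∃ p : G.Walk s t, Covers p ∧
          (1 + α) / 2 * cost w p < cost w (A w) := by
  refine ⟨GG, 0, 9, GG_connected, by decide, fun α h1 h2 A hA => ?_⟩
  have aP := adm_wt lP h1.le
  have aQ := adm_wt lQ h1.le
  have hsame : (A (wt lP α)).getVert 1 = (A (wt lQ α)).getVert 1 := by
    apply hA.2 _ _ aP aQ 0
    intro i hi u hu
    have : i = 0 := by omega
    subst this
    simp only [Walk.getVert_zero] at hu ⊢
    have : hv lP 0 u = hv lQ 0 u := by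
      revert u; decide
    simp only [wt, hvS, Sym2.lift_mk, this]
  have hadj : GG.Adj 0 ((A (wt lP α)).getVert 1) := by
    have hpos : 0 < (A (wt lP α)).length := by
      rcases Nat.eq_zero_or_pos (A (wt lP α)).length with h | h
      · exact absurd (Walk.eq_of_length_eq_zero h) (by decide)
      · exact h
    simpa using (A (wt lP α)).adj_getVert_succ hpos
  have hor : ∀ u, GG.Adj 0 u → u = 1 ∨ u = 5 := by decide
  rcases hor _ hadj with h | h
  · refine ⟨wt lQ α, aQ, wQ, covers_wQ, ?_⟩
    rw [cost_wQ]
    exact lower lQ 1 3 (by decide) (by decide) chkQ h1 h2 _ (hA.1 _ aQ) (hsame ▸ h)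
  · refine ⟨wt lP α, aP, wP, covers_wP, ?_⟩
    rw [cost_wP]
    exact lower lP 5 33 (by decide) (by decide) chkP h1 h2 _ (hA.1 _ aP) h

end Pool.Agent.P.MP_3f3880_lc
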