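import Mathlib

namespace Pool.Agent.P.MP_3f3880_lc.FO

/-- directed list of the edges of the graph with parameter `k`: two gadgets on `0..7`, `8..15`,
odd side `16 + j` (`j < k + 3`), even side `19 + k + i` (`i < k`). -/
def R (k x y : ℕ) : Prop :=
  (x < 15 ∧ y = x + 1) ∨ (x = 0 ∧ y = 4) ∨ (x = 3 ∧ y = 7) ∨ (x = 8 ∧ y = 12) ∨
  (x = 11 ∧ y = 15) ∨ (x = 0 ∧ y = 16) ∨ (x = 15 ∧ y = 17) ∨ (x = 17 ∧ y = 18) ∨
  (x = 2 ∧ y = 16 + k) ∨ (x = 5 ∧ y = 17 + k) ∨ (x = 10 ∧ y = 17 + k) ∨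
  (x = 13 ∧ y = 18 + k) ∨ (19 + k ≤ y ∧ y ≤ x + k + 3 ∧ x + k ≤ y ∧ x < 19 + k)

def A (k x y : ℕ) : Prop := R k x y ∨ R k y x

/-- consecutive positions -/
def U (pos : ℕ → ℕ) (x y : ℕ) : Prop := pos x + 1 = pos y ∨ pos y + 1 = pos x

lemma U.symm {pos : ℕ → ℕ} {x y : ℕ} (h : U pos x y) : U pos y x := Or.symm h

lemma U_comm (pos : ℕ → ℕ) (x y : ℕ) : U pos x y ↔ U pos y x := ⟨U.symm, U.symm⟩

/-- the position function of a Hamiltonian path from `16` to `18 + k` -/
structure Ham (k : ℕ) (pos : ℕ → ℕ) : Prop where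
  inj : ∀ x < 19 + 2 * k, ∀ y < 19 + 2 * k, pos x = pos y → x = y
  hs : pos 16 = 0
  ht : ∀ x < 19 + 2 * k, pos x ≤ pos (18 + k)
  succ : ∀ x < 19 + 2 * k, x ≠ 18 + k → ∃ y < 19 + 2 * k, A k x y ∧ pos y = pos x + 1
  pred : ∀ x < 19 + 2 * k, x ≠ 16 → ∃ y < 19 + 2 * k, A k x y ∧ pos y + 1 = pos x

variable {k : ℕ} {pos : ℕ → ℕ}

lemma Ham.le2 (h : Ham k pos) {x a b c : ℕ} (ha : a < 19 + 2 * k) (hb : b < 19 + 2 * k)
    (hc : c < 19 + 2 * k) (h1 : U pos x a) (h2 : U pos x b) (h3 : U pos x c) :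
    a = b ∨ a = c ∨ b = c := by
  have e1 := h.inj a ha b hb
  have e2 := h.inj a ha c hc
  have e3 := h.inj b hb c hc
  unfold U at *
  omega

lemma Ham.le1 (h : Ham k pos) {a b : ℕ} (ha : a < 19 + 2 * k) (hb : b < 19 + 2 * k)
    (h1 : U pos (18 + k) a) (h2 : U pos (18 + k) b) : a = b := by
  have e1 := h.inj a ha b hb
  have e2 := h.ht a ha
  have e3 := h.ht b hb
  unfold U at *
  omega

lemma Ham.ge2 (h : Ham k pos) {x : ℕ} (hx : x < 19 + 2 * k) (h1 : x ≠ 16) (h2 : x ≠ 18 + k) :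
    ∃ a < 19 + 2 * k, ∃ b < 19 + 2 * k, a ≠ b ∧ A k x a ∧ A k x b ∧ U pos x a ∧ U pos x b := by
  obtain ⟨a, ha, a1, a2⟩ := h.succ x hx h2
  obtain ⟨b, hb, b1, b2⟩ := h.pred x hx h1
  exact ⟨a, ha, b, hb, by rintro rfl; omega, a1, b1, Or.inl a2.symm, Or.inr b2⟩

lemma Ham.two (h : Ham k pos) {x a b : ℕ} (hx : x < 19 + 2 * k) (h1 : x ≠ 16) (h2 : x ≠ 18 + k)
    (hn : ∀ y < 19 + 2 * k, A k x y → U pos x y → y = a ∨ y = b) : U pos x a ∧ U pos x b := by
  obtain ⟨c, hc, d, hd, hcd, c1, d1, c2, d2⟩ := h.ge2 hx h1 h2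
  rcases hn c hc c1 c2 with rfl | rfl <;> rcases hn d hd d1 d2 with rfl | rfl
  · exact absurd rfl hcd
  · exact ⟨c2, d2⟩
  · exact ⟨d2, c2⟩
  · exact absurd rfl hcd

def Two (p q r : Prop) : Prop := (p ∧ q ∧ ¬ r) ∨ (p ∧ ¬ q ∧ r) ∨ (¬ p ∧ q ∧ r)

lemma Ham.three (h : Ham k pos) {x a b c : ℕ} (hx : x < 16) (ha : a < 19 + 2 * k)
    (hb : b < 19 + 2 * k) (hc : c < 19 + 2 * k) (hab : a ≠ b) (hac : a ≠ c) (hbc : b ≠ c)
    (hn : ∀ y < 19 + 2 * k, A k x y → y = a ∨ y = b ∨ y = c) :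
    Two (U pos x a) (U pos x b) (U pos x c) := by
  obtain ⟨d, hd, e, he, hde, d1, e1, d2, e2⟩ := h.ge2 (x := x) (by omega) (by omega) (by omega)
  have hle : ¬ (U pos x a ∧ U pos x b ∧ U pos x c) := fun ⟨u, v, w⟩ => by
    have := h.le2 ha hb hc u v w
    omega
  unfold Two
  rcases hn d hd d1 with rfl | rfl | rfl <;> rcases hn e he e1 with rfl | rfl | rfl <;> tauto

lemma xor_prop {u u' v v' x01 x12 x23 x34 x45 x56 x67 x04 x37 : Prop}
    (h0 : Two u x01 x04) (h1 : x01 ∧ x12) (h2 : Two x12 x23 v) (h3 : Two x23 x34 x37)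
    (h4 : Two x34 x45 x04) (h5 : Two x45 x56 v') (h6 : x56 ∧ x67) (h7 : Two x67 x37 u')
    (c1 : ¬ (x23 ∧ x34 ∧ x04)) (c2 : ¬ (x34 ∧ x45 ∧ x37)) (c3 : ¬ (x23 ∧ x37 ∧ x45 ∧ x04)) :
    (u ∧ u' ∧ ¬ v ∧ ¬ v') ∨ (¬ u ∧ ¬ u' ∧ v ∧ v') := by
  unfold Two at *
  obtain ⟨a1, a2⟩ := h1
  obtain ⟨a3, a4⟩ := h6
  by_cases b1 : x23 <;> by_cases b2 : x34 <;> by_cases b3 : x45 <;> by_cases b4 : x04 <;>
    by_cases b5 : x37 <;> simp_all

lemma Ham.gadget (h : Ham k pos) (hk : 3 ≤ k) {o u u' v v' : ℕ}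
    (ho : (o = 0 ∧ u = 16 ∧ u' = 8 ∧ v = 16 + k ∧ v' = 17 + k) ∨
      (o = 8 ∧ u = 7 ∧ u' = 17 ∧ v = 17 + k ∧ v' = 18 + k)) :
    (U pos o u ∧ U pos (o + 7) u' ∧ ¬ U pos (o + 2) v ∧ ¬ U pos (o + 5) v') ∨
      (¬ U pos o u ∧ ¬ U pos (o + 7) u' ∧ U pos (o + 2) v ∧ U pos (o + 5) v') := by
  have t0 := h.three (x := o) (a := u) (b := o + 1) (c := o + 4) (by omega) (by omega) (by omega)
    (by omega) (by omega) (by omega) (by omega) (fun y _ hy => by unfold A R at hy; omega)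
  have t1 := h.two (x := o + 1) (a := o) (b := o + 2) (by omega) (by omega) (by omega)
    (fun y _ hy _ => by unfold A R at hy; omega)
  have t2 := h.three (x := o + 2) (a := o + 1) (b := o + 3) (c := v) (by omega) (by omega)
    (by omega) (by omega) (by omega) (by omega) (by omega)
    (fun y _ hy => by unfold A R at hy; omega)
  have t3 := h.three (x := o + 3) (a := o + 2) (b := o + 4) (c := o + 7) (by omega) (by omega)
    (by omega) (by omega) (by omega) (by omega) (by omega)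
    (fun y _ hy => by unfold A R at hy; omega)
  have t4 := h.three (x := o + 4) (a := o + 3) (b := o + 5) (c := o) (by omega) (by omega)
    (by omega) (by omega) (by omega) (by omega) (by omega)
    (fun y _ hy => by unfold A R at hy; omega)
  have t5 := h.three (x := o + 5) (a := o + 4) (b := o + 6) (c := v') (by omega) (by omega)
    (by omega) (by omega) (by omega) (by omega) (by omega)
    (fun y _ hy => by unfold A R at hy; omega)
  have t6 := h.two (x := o + 6) (a := o + 5) (b := o + 7) (by omega) (by omega) (by omega)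
    (fun y _ hy _ => by unfold A R at hy; omega)
  have t7 := h.three (x := o + 7) (a := o + 6) (b := o + 3) (c := u') (by omega) (by omega)
    (by omega) (by omega) (by omega) (by omega) (by omega)
    (fun y _ hy => by unfold A R at hy; omega)
  rw [U_comm pos (o + 1) o] at t1
  rw [U_comm pos (o + 2) (o + 1)] at t2
  rw [U_comm pos (o + 3) (o + 2)] at t3
  rw [U_comm pos (o + 4) (o + 3), U_comm pos (o + 4) o] at t4
  rw [U_comm pos (o + 5) (o + 4)] at t5
  rw [U_comm pos (o + 6) (o + 5)] at t6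
  rw [U_comm pos (o + 7) (o + 6), U_comm pos (o + 7) (o + 3)] at t7
  have hne : ∀ a b, a < 8 → b < 8 → a ≠ b → pos (o + a) ≠ pos (o + b) := fun a b ha hb hab e => by
    have := h.inj _ (by omega) _ (by omega) e
    omega
  refine xor_prop t0 t1 t2 t3 t4 t5 t6 t7 ?_ ?_ ?_
  · rintro ⟨a, b, c⟩
    obtain ⟨d, e⟩ := t1
    unfold U at a b c d e
    omega
  · rintro ⟨a, b, c⟩
    obtain ⟨d, e⟩ := t6
    unfold U at a b c d e
    omega
  · rintro ⟨a, b, c, d⟩
    obtain ⟨e, f⟩ := t1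
    obtain ⟨g, i⟩ := t6
    have n1 := hne 0 2 (by omega) (by omega) (by omega)
    have n2 := hne 1 3 (by omega) (by omega) (by omega)
    have n3 := hne 2 7 (by omega) (by omega) (by omega)
    have n4 := hne 3 6 (by omega) (by omega) (by omega)
    have n5 := hne 7 5 (by omega) (by omega) (by omega)
    have n6 := hne 6 4 (by omega) (by omega) (by omega)
    have n7 := hne 5 0 (by omega) (by omega) (by omega)
    rw [add_zero] at n1 n7
    unfold U at a b c d e f g i
    omega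

/-- first move into the gadget: the even side uses its two far edges -/
lemma Ham.modeA (h : Ham k pos) (hk : 3 ≤ k) (h0 : U pos 0 16) (i : ℕ) (h1 : 1 ≤ i) (hi : i < k) :
    U pos (19 + k + i) (18 + i) ∧ U pos (19 + k + i) (19 + i) := by
  have g1 := h.gadget hk (Or.inl ⟨rfl, rfl, rfl, rfl, rfl⟩)
  have g2 := h.gadget hk (Or.inr ⟨rfl, rfl, rfl, rfl, rfl⟩)
  norm_num at g1 g2
  have a1 : U pos 7 8 ∧ ¬ U pos 2 (16 + k) ∧ ¬ U pos 5 (17 + k) := by tauto
  have a0 : U pos 8 7 := a1.1.symm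
  have a2 : ¬ U pos 10 (17 + k) ∧ ¬ U pos 13 (18 + k) := by tauto
  have key : ∀ d j, j + d = k + 2 → 3 ≤ j → U pos (16 + j) (16 + k + j) ∧
      (j ≤ k + 1 → U pos (16 + j) (17 + k + j)) := by
    intro d
    induction d using Nat.strong_induction_on with
    | _ d ih =>
      intro j hj h3
      have nb : ∀ y < 19 + 2 * k, A k (16 + j) y → U pos (16 + j) y →
          y = 16 + k + j ∨ y = 17 + k + j := by
        intro y hy hA hU
        by_contra hc
        have hcase : (y = 2 ∧ j = k) ∨ (y = 5 ∧ j = k + 1) ∨ (y = 10 ∧ j = k + 1) ∨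
            (y = 13 ∧ j = k + 2) ∨ (18 + k + j ≤ y ∧ y ≤ 19 + k + j) := by
          unfold A R at hA
          omega
        rcases hcase with ⟨rfl, rfl⟩ | ⟨rfl, rfl⟩ | ⟨rfl, rfl⟩ | ⟨rfl, rfl⟩ | ⟨b1, b2⟩
        · exact a1.2.1 hU.symm
        · exact a1.2.2 (by rw [show 17 + k = 16 + (k + 1) by omega]; exact hU.symm)
        · exact a2.1 (by rw [show 17 + k = 16 + (k + 1) by omega]; exact hU.symm)
        · exact a2.2 (by rw [show 18 + k = 16 + (k + 2) by omega]; exact hU.symm)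
        · obtain ⟨m, rfl⟩ : ∃ m, y = 17 + k + m := ⟨y - (17 + k), by omega⟩
          have c1 := (ih (k + 2 - m) (by omega) m (by omega) (by omega)).2 (by omega)
          have c2 := (ih (k + 1 - m) (by omega) (m + 1) (by omega) (by omega)).1
          rw [show 16 + k + (m + 1) = 17 + k + m by omega] at c2
          have := h.le2 (by omega) (by omega) (by omega) hU.symm c1.symm c2.symm
          omega
      by_cases ht : j = k + 2
      · subst ht
        obtain ⟨y, hy, y1, y2⟩ := h.pred (16 + (k + 2)) (by omega) (by omega)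
        have := nb y hy y1 (Or.inr y2)
        refine ⟨?_, fun hh => by omega⟩
        rw [show 16 + k + (k + 2) = y by omega]
        exact Or.inr y2
      · have := h.two (x := 16 + j) (by omega) (by omega) (by omega) nb
        exact ⟨this.1, fun _ => this.2⟩
  have c1 := (key (k - i) (i + 2) (by omega) (by omega)).2 (by omega)
  have c2 := (key (k - 1 - i) (i + 3) (by omega) (by omega)).1
  rw [show 16 + (i + 2) = 18 + i by omega, show 17 + k + (i + 2) = 19 + k + i by omega] at c1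
  rw [show 16 + (i + 3) = 19 + i by omega, show 16 + k + (i + 3) = 19 + k + i by omega] at c2
  exact ⟨c1.symm, c2.symm⟩

/-- first move into the strip: the even side uses its two near edges -/
lemma Ham.modeB (h : Ham k pos) (hk : 3 ≤ k) (h0 : ¬ U pos 0 16) (i : ℕ) (hi : i < k) :
    U pos (19 + k + i) (16 + i) ∧ U pos (19 + k + i) (17 + i) := by
  have g1 := h.gadget hk (Or.inl ⟨rfl, rfl, rfl, rfl, rfl⟩)
  have g2 := h.gadget hk (Or.inr ⟨rfl, rfl, rfl, rfl, rfl⟩)
  norm_num at g1 g2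
  have a1 : ¬ U pos 7 8 ∧ U pos 2 (16 + k) ∧ U pos 5 (17 + k) := by tauto
  have a0 : ¬ U pos 8 7 := fun hh => a1.1 hh.symm
  have a2 : U pos 10 (17 + k) ∧ U pos 13 (18 + k) := by tauto
  have key : ∀ d i, i + d = k → 1 ≤ d →
      U pos (19 + k + i) (16 + i) ∧ U pos (19 + k + i) (17 + i) := by
    intro d
    induction d using Nat.strong_induction_on with
    | _ d ih =>
      intro i hi hd
      refine h.two (by omega) (by omega) (by omega) fun y hy hA hU => ?_
      by_contra hc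
      have hcase : 18 + i ≤ y ∧ y ≤ 19 + i := by
        unfold A R at hA
        omega
      by_cases c1 : y = 18 + k
      · subst c1
        have := h.le1 (by omega) (by omega) hU.symm a2.2.symm
        omega
      by_cases c2 : y = 17 + k
      · subst c2
        have := h.le2 (by omega) (by omega) (by omega) hU.symm a1.2.2.symm a2.1.symm
        omega
      obtain ⟨m, rfl⟩ : ∃ m, y = 17 + m := ⟨y - 17, by omega⟩
      have d1 := (ih (k - m) (by omega) m (by omega) (by omega)).2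
      by_cases c3 : m + 1 = k
      · have d2 := a1.2.1
        rw [show 16 + k = 17 + m by omega] at d2
        have := h.le2 (by omega) (by omega) (by omega) hU.symm d1.symm d2.symm
        omega
      · have d2 := (ih (k - (m + 1)) (by omega) (m + 1) (by omega) (by omega)).1
        rw [show 16 + (m + 1) = 17 + m by omega] at d2
        have := h.le2 (by omega) (by omega) (by omega) hU.symm d1.symm d2.symm
        omega
  exact key (k - i) i (by omega) (by omega)

end Pool.Agent.P.MP_3f3880_lc.FO
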